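import Pool.Agent.KK.StmtsW

/-!
# KK, row GLU: arithmetic of loops
-/

set_option autoImplicit false

namespace Pool.Agent.KK.H61

open Pool.Agent.KK

theorem length_blk {k t : ℕ} (h : t ≤ k) : (blk k t).length = k := by
  simp [blk]; omega

theorem wt_blk (k t : ℕ) : wt (blk k t) = t := by
  simp [blk, wt, List.count_replicate]

theorem per_add_mul (hPwt : PwtStmt) (w : List Bool) (a m M : ℕ) :
    per w (a + w.length * M) m = per w a m := by
  induction M with
  | zero => simp
  | succ M ih =>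
    have e : a + w.length * (M + 1) = (a + w.length * M) + w.length := by ring
    rw [e, hPwt.2.1, ih]

theorem wt_per_mul (hPwt : PwtStmt) (w : List Bool) (a M : ℕ) :
    wt (per w a (w.length * M)) = wt w * M := by
  induction M with
  | zero => simp [per, wt]
  | succ M ih =>
    have e : w.length * (M + 1) = w.length * M + w.length := by ring
    rw [e, hPwt.2.2.2.1]
    have h1 := hPwt.1 w (a + w.length * M)
    unfold wt at h1 ih ⊢
    rw [List.count_append, ih, h1]; ring

/-- a stretch of full periods -/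
theorem periods (hPer : PerStmt) (hPwt : PwtStmt) (V : Type) [Fintype V] [DecidableEq V]
    (H : Finset (Finset V)) (X : Finset V) (k p : ℕ) (ε : ℝ) (K : ℕ) (w : List Bool) (M : ℕ)
    (hk : 1 ≤ k) (hw : w.length = k) (hp : wt w % 2 = p) :
    Pl V H X k p ε K (per w 0 (k - 1)) (per w 0 (k - 1)) (k * M) (wt w * M) 0 := by
  have h1 := hPer V H X k p ε K w 0 (k * M) hk hw hp
  rw [← hw] at h1
  rw [per_add_mul hPwt, wt_per_mul hPwt, hw] at h1
  exact h1

theorem glu (hPer : PerStmt) (hPwt : PwtStmt) (hTra : TraStmt) : GluStmt := by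
  intro k B hk
  refine ⟨k * B, by nlinarith, ?_⟩
  intro V _ _ H X p ε K j t t' w' hcase hjk htp hw'len hw'wt hplans N a hlow hupp
  have hB : k * B ≤ N := by
    have h1 : 1 ≤ j := by omega
    have h2 : (j - 1) * N + 2 * N = (j + 1) * N := by
      obtain ⟨i, rfl⟩ := Nat.exists_eq_add_of_le h1
      have : 1 + i - 1 = i := by omega
      rw [this]; ring
    omega
  obtain ⟨N₁, a₁, q₁, N₂, a₂, q₂, hN, hq, ha, hr, hδ, hP1, hP2⟩ :=
    hplans (N % k) ((a + t * (N / k)) % 2) (Nat.mod_lt _ (by omega)) (Nat.mod_lt _ (by omega))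
  have htk : t ≤ k := by omega
  -- number of periods
  have hBk : B ≤ k * B := by nlinarith
  have hNk : (N₁ + N₂) + k * (N / k - (N₁ + N₂) / k) = N := by
    have h1 := Nat.div_add_mod N k
    have h2 := Nat.div_add_mod (N₁ + N₂) k
    have h3 : (N₁ + N₂) / k ≤ N / k := Nat.div_le_div_right (by omega)
    rw [Nat.mul_sub]
    have h4 : k * ((N₁ + N₂) / k) ≤ k * (N / k) := Nat.mul_le_mul_left _ h3
    omega
  set M := N / k - (N₁ + N₂) / k with hM
  have hdiv : N / k = M + (N₁ + N₂) / k := by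
    have h3 : (N₁ + N₂) / k ≤ N / k := Nat.div_le_div_right (by omega)
    omega
  have hpar : (a₁ + a₂ + t * M) % 2 = a % 2 := by
    rw [hdiv] at hδ
    generalize (N₁ + N₂) / k = D at hδ
    have h1 : (a₁ + a₂ + t * D + (t * D + t * M)) % 2 = (a + t * (M + D) + (t * D + t * M)) % 2 := by
      omega
    have e1 : a₁ + a₂ + t * D + (t * D + t * M) = (a₁ + a₂ + t * M) + 2 * (t * D) := by ring
    have e2 : a + t * (M + D) + (t * D + t * M) = a + 2 * (t * (M + D)) := by ring
    rw [e1, e2] at h1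
    omega
  -- existence of `M'`
  have hM' : ∃ M' M'' : ℕ, M' + M'' = M ∧ a₁ + a₂ + t' * M' + t * M'' = a := by
    have hlowz : ((j : ℤ) - 1) * N + k * B ≤ k * a := by
      have h1 : 1 ≤ j := by omega
      have : (((j - 1 : ℕ) : ℤ)) * N + k * B ≤ k * a := by exact_mod_cast hlow
      rwa [Nat.cast_sub h1] at this
    have huppz : (k : ℤ) * a + k * B ≤ (j + 1) * N := by exact_mod_cast hupp
    have hNz : ((N₁ + N₂ : ℕ) : ℤ) + k * M = N := by exact_mod_cast hNk
    have hN0 : (0 : ℤ) ≤ ((N₁ + N₂ : ℕ) : ℤ) := by positivity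
    have hNB : ((N₁ + N₂ : ℕ) : ℤ) ≤ B := by exact_mod_cast hN
    have haz : (((a₁ + a₂ : ℕ)) : ℤ) ≤ B := by exact_mod_cast ha
    have hkz : (0 : ℤ) < k := by positivity
    have hB0 : (0 : ℤ) ≤ B := by positivity
    have hjkz : (j : ℤ) + 1 ≤ k := by exact_mod_cast hjk
    have hM0 : (0 : ℤ) ≤ M := by positivity
    have hj1 : (1 : ℤ) ≤ j := by
      have h1 : 1 ≤ j := by omega
      exact_mod_cast h1
    set A : ℤ := (((a₁ + a₂ : ℕ)) : ℤ) with hA
    set n0 : ℤ := ((N₁ + N₂ : ℕ) : ℤ) with hn0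
    have hL : A + (j - 1) * M ≤ a := by
      have h1 : (k : ℤ) * (A + (j - 1) * M) ≤ k * a := by
        have h2 : (k : ℤ) * A ≤ k * B := by nlinarith
        have h3 : ((j : ℤ) - 1) * (k * M) ≤ (j - 1) * N := by
          have : (k : ℤ) * M ≤ N := by linarith
          nlinarith
        have h4 : (k : ℤ) * (A + (j - 1) * M) = k * A + (j - 1) * (k * M) := by ring
        linarith
      exact le_of_mul_le_mul_left h1 hkz
    have hU : (a : ℤ) ≤ A + (j + 1) * M := by
      have hA0 : 0 ≤ A := by positivity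
      have h1 : (k : ℤ) * a ≤ k * (A + (j + 1) * M) := by
        have h2 : ((j : ℤ) + 1) * N = (j + 1) * n0 + (j + 1) * (k * M) := by rw [← hNz]; ring
        have h3 : ((j : ℤ) + 1) * n0 ≤ k * B := by
          calc ((j : ℤ) + 1) * n0 ≤ k * n0 := mul_le_mul_of_nonneg_right hjkz hN0
            _ ≤ k * B := mul_le_mul_of_nonneg_left hNB hkz.le
        have h5 : 0 ≤ (k : ℤ) * A := by positivity
        have h4 : (k : ℤ) * (A + (j + 1) * M) = k * A + (j + 1) * (k * M) := by ring
        linarith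
      exact le_of_mul_le_mul_left h1 hkz
    rcases hcase with ⟨h1, h2⟩ | ⟨h1, h2⟩
    · -- `t = j - 1`, `t' = j + 1`
      have htz : (j : ℤ) = t + 1 := by exact_mod_cast h1.symm
      rw [htz] at hL hU
      have hL' : a₁ + a₂ + t * M ≤ a := by
        have : ((a₁ + a₂ + t * M : ℕ) : ℤ) ≤ a := by
          push_cast [hA] at hL ⊢
          linarith
        exact_mod_cast this
      have hU' : a ≤ a₁ + a₂ + (t + 2) * M := by
        have : (a : ℤ) ≤ ((a₁ + a₂ + (t + 2) * M : ℕ) : ℤ) := by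
          push_cast [hA] at hU ⊢
          linarith
        exact_mod_cast this
      obtain ⟨M', hM'⟩ : ∃ M', a = a₁ + a₂ + t * M + 2 * M' :=
        ⟨(a - (a₁ + a₂ + t * M)) / 2, by omega⟩
      have hM'M : M' ≤ M := by
        have e : (t + 2) * M = t * M + 2 * M := by ring
        omega
      refine ⟨M', M - M', by omega, ?_⟩
      obtain ⟨L, hL2⟩ := Nat.exists_eq_add_of_le hM'M
      have : M - M' = L := by omega
      rw [this, hM', hL2]
      have h3 : t' = t + 2 := by omega
      rw [h3]; ring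
    · have htz : (j : ℤ) = t - 1 := by
        have : (t : ℤ) = j + 1 := by exact_mod_cast h1
        linarith
      have ht2 : 2 ≤ t := by omega
      obtain ⟨s, rfl⟩ : ∃ s, t = s + 2 := ⟨t - 2, by omega⟩
      have hs : t' = s := by omega
      rw [htz] at hL hU
      have hL' : a₁ + a₂ + s * M ≤ a := by
        have : ((a₁ + a₂ + s * M : ℕ) : ℤ) ≤ a := by
          push_cast [hA] at hL ⊢
          linarith
        exact_mod_cast this
      have hU' : a ≤ a₁ + a₂ + (s + 2) * M := by
        have : (a : ℤ) ≤ ((a₁ + a₂ + (s + 2) * M : ℕ) : ℤ) := by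
          push_cast [hA] at hU ⊢
          linarith
        exact_mod_cast this
      obtain ⟨M', hM'⟩ : ∃ M', a + 2 * M' = a₁ + a₂ + (s + 2) * M :=
        ⟨(a₁ + a₂ + (s + 2) * M - a) / 2, by omega⟩
      have hM'M : M' ≤ M := by
        have e : (s + 2) * M = s * M + 2 * M := by ring
        omega
      refine ⟨M', M - M', by omega, ?_⟩
      obtain ⟨L, hL2⟩ := Nat.exists_eq_add_of_le hM'M
      have : M - M' = L := by omega
      rw [this, hs]
      rw [hL2] at hM'
      have e : (s + 2) * (M' + L) = s * M' + (s + 2) * L + 2 * M' := by ring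
      omega
  obtain ⟨M', M'', hMM, haa⟩ := hM'
  have hwb : wt (blk k t) % 2 = p := by rw [wt_blk]; exact htp
  have hw2 : wt w' % 2 = p := by rw [hw'wt]; omega
  have P1 := periods hPer hPwt V H X k p ε K (blk k t) M'' (by omega) (length_blk htk) hwb
  have P2 := periods hPer hPwt V H X k p ε K w' M' (by omega) hw'len hw2
  have Q1 := hTra _ _ _ _ _ _ _ _ _ _ _ _ _ _ _ _ P1 hP1
  have Q2 := hTra _ _ _ _ _ _ _ _ _ _ _ _ _ _ _ _ Q1 P2
  have Q3 := hTra _ _ _ _ _ _ _ _ _ _ _ _ _ _ _ _ Q2 hP2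
  refine ⟨0 + q₁ + 0 + q₂, by omega, ?_⟩
  have eN : k * M'' + N₁ + k * M' + N₂ = N := by
    have : k * M'' + k * M' = k * M := by rw [← hMM]; ring
    omega
  have ea : wt (blk k t) * M'' + a₁ + wt w' * M' + a₂ = a := by
    rw [wt_blk, hw'wt]; omega
  rw [eN, ea] at Q3
  exact Q3

end Pool.Agent.KK.H61
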