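import Pool.Agent.KK.StmtsW

/-!
# KK, row HLO: lowering a height function
-/

set_option autoImplicit false

namespace Pool.Agent.KK.H61

open Pool.Agent.KK

theorem Hgt.mul {k t : ℕ} {h : ℤ → ℤ} (hh : Hgt k t h) (x m : ℤ) :
    h (x + k * m) = h x + t * m := by
  have hn : ∀ (n : ℕ) (x : ℤ), h (x + k * n) = h x + t * n := by
    intro n
    induction n with
    | zero => intro x; simp
    | succ n ih =>
      intro x
      have e : x + (k : ℤ) * ((n + 1 : ℕ) : ℤ) = (x + k * n) + k := by push_cast; ring
      rw [e, hh.2, ih]; push_cast; ring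
  rcases Int.eq_nat_or_neg m with ⟨n, rfl | rfl⟩
  · exact hn n x
  · have := hn n (x + k * (-(n : ℤ)))
    have e : x + (k : ℤ) * (-(n : ℤ)) + k * n = x := by ring
    rw [e] at this
    linarith

theorem hlo : HloStmt := by
  intro k t h h' ht0 htk hh hh' hle ⟨x0, hx0⟩
  have hk : 0 < k := lt_trans ht0 htk
  have hkz : (0 : ℤ) < k := by exact_mod_cast hk
  -- maximum of `h - h'`
  obtain ⟨xm, hxm, hmax⟩ := Finset.exists_max_image (Finset.Ico (0 : ℤ) k) (fun x => h x - h' x)
    ⟨0, by simp [hk]⟩
  have hper : ∀ x m : ℤ, h (x + k * m) - h' (x + k * m) = h x - h' x := by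
    intro x m; rw [Hgt.mul hh, Hgt.mul hh']; ring
  have hred : ∀ x : ℤ, h x - h' x = h (x % k) - h' (x % k) := by
    intro x
    have := hper (x % k) (x / k)
    rw [Int.emod_add_mul_ediv] at this
    exact this
  have hM : ∀ x : ℤ, h x - h' x ≤ h xm - h' xm := by
    intro x
    rw [hred x]
    exact hmax _ (by simp [Int.emod_nonneg _ hkz.ne', Int.emod_lt_of_pos _ hkz])
  set M := h xm - h' xm with hMdef
  have hMpos : 0 < M := by
    have h1 := hM x0
    have h2 := hle x0
    have h3 : h' x0 < h x0 := lt_of_le_of_ne h2 hx0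
    linarith
  -- step to the right
  have hstepR : ∀ x, h x - h' x = M → h (x + 1) = h x + 1 → h (x + 1) - h' (x + 1) = M := by
    intro x hx h1
    have h2 := hM (x + 1)
    rcases hh'.1 x with h3 | h3 <;> linarith
  have hex1 : ∃ x, h x - h' x = M ∧ h (x + 1) = h x := by
    by_contra hcon
    push Not at hcon
    have key : ∀ n : ℕ, h (xm + n) - h' (xm + n) = M ∧ h (xm + n) = h xm + n := by
      intro n
      induction n with
      | zero => simp [hMdef]
      | succ n ih =>
        have h1 := hcon (xm + n) ih.1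
        have h2 : h (xm + n + 1) = h (xm + n) + 1 := (hh.1 (xm + n)).resolve_left h1
        have h3 := hstepR _ ih.1 h2
        have e : xm + ((n + 1 : ℕ) : ℤ) = xm + n + 1 := by push_cast; ring
        rw [e]
        refine ⟨h3, ?_⟩
        rw [h2, ih.2]; push_cast; ring
    have h1 := (key k).2
    rw [hh.2] at h1
    have : (t : ℤ) = k := by linarith
    have : t = k := by exact_mod_cast this
    omega
  obtain ⟨x1, hx1, hx1'⟩ := hex1
  have hstepL : ∀ x, h x - h' x = M → h x = h (x - 1) → h (x - 1) - h' (x - 1) = M := by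
    intro x hx h1
    have h2 := hM (x - 1)
    have h4 := hh'.1 (x - 1)
    rw [sub_add_cancel] at h4
    rcases h4 with h3 | h3 <;> linarith
  have hex2 : ∃ x, h x - h' x = M ∧ h (x + 1) = h x ∧ h x = h (x - 1) + 1 := by
    by_contra hcon
    push Not at hcon
    have key : ∀ n : ℕ, h (x1 - n) - h' (x1 - n) = M ∧ h (x1 - n + 1) = h (x1 - n) ∧
        h (x1 - n) = h x1 := by
      intro n
      induction n with
      | zero => simp [hx1, hx1']
      | succ n ih =>
        have h1 := hcon (x1 - n) ih.1 ih.2.1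
        have h4 := hh.1 (x1 - n - 1)
        rw [sub_add_cancel] at h4
        have h2 : h (x1 - n) = h (x1 - n - 1) := h4.resolve_right h1
        have h3 := hstepL _ ih.1 h2
        have e : x1 - ((n + 1 : ℕ) : ℤ) = x1 - n - 1 := by push_cast; ring
        rw [e]
        refine ⟨h3, ?_, ?_⟩
        · rw [sub_add_cancel]; exact h2
        · rw [← h2, ih.2.2]
    have h1 := (key k).2.2
    have h2 := hh.2 (x1 - k)
    rw [sub_add_cancel, h1] at h2
    have : (t : ℤ) = 0 := by linarith
    have : t = 0 := by exact_mod_cast this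
    omega
  obtain ⟨x2, hx2, hx2r, hx2l⟩ := hex2
  -- reduce mod `k`
  have hc0 : 0 ≤ x2 % k := Int.emod_nonneg _ hkz.ne'
  have hc1 : x2 % k < k := Int.emod_lt_of_pos _ hkz
  obtain ⟨c, hc⟩ := Int.eq_ofNat_of_zero_le hc0
  have hx2e : x2 = (c : ℤ) + k * (x2 / k) := by
    have := Int.emod_add_mul_ediv x2 k
    rw [hc] at this
    exact this.symm
  have hck : c < k := by
    have : (c : ℤ) < k := by rw [← hc]; exact hc1
    exact_mod_cast this
  set m := x2 / (k : ℤ) with hm
  have hA : h c - h' c = M := by
    rw [hx2e, hper] at hx2; exact hx2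
  have hB : h ((c : ℤ) + 1) = h c := by
    have e : x2 + 1 = ((c : ℤ) + 1) + k * m := by rw [hx2e]; ring
    rw [e, Hgt.mul hh] at hx2r
    rw [hx2e, Hgt.mul hh] at hx2r
    linarith
  have hC : h c = h ((c : ℤ) - 1) + 1 := by
    have e : x2 - 1 = ((c : ℤ) - 1) + k * m := by rw [hx2e]; ring
    rw [e, Hgt.mul hh] at hx2l
    rw [hx2e, Hgt.mul hh] at hx2l
    linarith
  refine ⟨c, hck, hC, hB, ⟨?_, ?_⟩, ?_⟩
  · intro x
    by_cases h1 : (k : ℤ) ∣ x - c
    · have h2 : ¬ (k : ℤ) ∣ x + 1 - c := by
        intro h2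
        have h3 : (k : ℤ) ∣ 1 := by
          have := dvd_sub h2 h1
          have e : x + 1 - c - (x - c) = 1 := by ring
          rwa [e] at this
        have h4 := Int.le_of_dvd one_pos h3
        have : k ≤ 1 := by exact_mod_cast h4
        omega
      simp only [h1, h2, if_true, if_false]
      obtain ⟨m', hm'⟩ := h1
      have e1 : x = c + k * m' := by linarith
      have e2 : x + 1 = (c + 1) + k * m' := by linarith
      right
      rw [e2, Hgt.mul hh, hB, e1, Hgt.mul hh]; ring
    · by_cases h2 : (k : ℤ) ∣ x + 1 - c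
      · simp only [h1, h2, if_true, if_false]
        obtain ⟨m', hm'⟩ := h2
        have e1 : x = (c - 1) + k * m' := by linarith
        have e2 : x + 1 = c + k * m' := by linarith
        left
        rw [e2, Hgt.mul hh, e1, Hgt.mul hh, hC]; ring
      · simp only [h1, h2, if_false]
        exact hh.1 x
  · intro x
    have h1 : (k : ℤ) ∣ x + k - c ↔ (k : ℤ) ∣ x - c := by
      have e : x + k - c = (x - c) + k := by ring
      rw [e]; exact dvd_add_self_right
    by_cases h2 : (k : ℤ) ∣ x - c
    · simp only [h1, h2, if_true]; rw [hh.2]; ring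
    · simp only [h1, h2, if_false]; rw [hh.2]
  · intro x
    by_cases h2 : (k : ℤ) ∣ x - c
    · simp only [h2, if_true]
      obtain ⟨m', hm'⟩ := h2
      have e1 : x = c + k * m' := by linarith
      have := hper c m'
      rw [← e1] at this
      linarith
    · simp only [h2, if_false]; exact hle x

end Pool.Agent.KK.H61
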