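import Pool.Agent.KK.StmtsW

/-!
# KK, row HWD: words and heights
-/

set_option autoImplicit false

namespace Pool.Agent.KK.H61

open Pool.Agent.KK

theorem wt_wd_aux (h : ℤ → ℤ) (h1 : ∀ x, h (x + 1) = h x ∨ h (x + 1) = h x + 1) (n : ℕ) :
    ((wt ((List.range n).map fun i : ℕ => decide (h ((i : ℤ) + 1) = h (i : ℤ) + 1)) : ℕ) : ℤ) =
      h n - h 0 := by
  induction n with
  | zero => simp [wt]
  | succ n ih =>
    unfold wt at ih ⊢
    rw [List.range_succ, List.map_append, List.count_append]
    push_cast
    rw [ih]
    rcases h1 n with h2 | h2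
    · have h3 : ¬ h (n : ℤ) = h (n : ℤ) + 1 := by linarith
      simp [h2]
    · simp [h2]; ring

theorem wt_take_succ (W : List Bool) (r : ℕ) (hr : r < W.length) :
    wt (W.take (r + 1)) = wt (W.take r) + if W[r] = true then 1 else 0 := by
  unfold wt
  rw [List.take_succ_eq_append_getElem hr, List.count_append]
  congr 1
  cases W[r] <;> simp

/-- the word of a height function without the implicit coercion of lists -/
theorem wd_eq (k : ℕ) (h : ℤ → ℤ) :
    wd k h = (List.range k).map fun i : ℕ => decide (h ((i : ℤ) + 1) = h (i : ℤ) + 1) := by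
  unfold wd
  simp [List.bind_eq_flatMap, List.pure_def, List.map_eq_flatMap, List.flatMap_assoc]

theorem hwd : HwdStmt := by
  refine ⟨?_, ?_⟩
  · intro k t h hh
    refine ⟨by simp [wd_eq], ?_⟩
    have h1 := wt_wd_aux h hh.1 k
    have h2 := hh.2 0
    rw [zero_add] at h2
    rw [wd_eq]
    rw [h2] at h1
    have : ((wt ((List.range k).map fun i : ℕ => decide (h ((i : ℤ) + 1) = h (i : ℤ) + 1)) : ℕ) : ℤ)
        = (t : ℤ) := by rw [h1]; ring
    exact_mod_cast this
  · intro W hW
    have hkz : (0 : ℤ) < W.length := by exact_mod_cast hW
    set k := W.length with hk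
    set h : ℤ → ℤ := fun x => (x / k) * wt W + wt (W.take (x % k).toNat) with hdef
    have hr0 : ∀ x : ℤ, 0 ≤ x % k := fun x => Int.emod_nonneg _ hkz.ne'
    have hr1 : ∀ x : ℤ, x % k < k := fun x => Int.emod_lt_of_pos _ hkz
    have hrn : ∀ x : ℤ, (x % k).toNat < W.length := by
      intro x
      have := hr0 x; have := hr1 x
      omega
    have hsucc : ∀ x : ℤ, h (x + 1) = h x + if W[(x % k).toNat]'(hrn x) = true then 1 else 0 := by
      intro x
      have e1 : h (x + 1) = (x / k) * wt W + wt (W.take ((x % k).toNat + 1)) := by
        have h2 := Int.emod_add_mul_ediv x k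
        rcases lt_or_ge (x % k + 1) (k : ℤ) with h3 | h3
        · have e2 : (x + 1) / k = x / k := by
            have : x + 1 = (x % k + 1) + k * (x / k) := by linarith
            rw [this, Int.add_mul_ediv_left _ _ hkz.ne',
              Int.ediv_eq_zero_of_lt (by linarith [hr0 x]) h3]
            ring
          have e3 : (x + 1) % k = x % k + 1 := by
            have : x + 1 = (x % k + 1) + k * (x / k) := by linarith
            rw [this, Int.add_mul_emod_self_left, Int.emod_eq_of_lt (by linarith [hr0 x]) h3]
          simp only [hdef, e2, e3]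
          congr 3
          have := hr0 x
          congr 1
          omega
        · have h3' : x % k + 1 = k := le_antisymm (by linarith [hr1 x]) h3
          have h5 : x + 1 = k * (x / k + 1) := by linarith
          have e2 : (x + 1) / k = x / k + 1 := by
            rw [h5, Int.mul_ediv_cancel_left _ hkz.ne']
          have e3 : (x + 1) % k = 0 := by
            rw [h5]; exact Int.mul_emod_right _ _
          have e4 : W.take ((x % k).toNat + 1) = W := by
            apply List.take_of_length_le
            have := hr0 x
            omega
          simp only [hdef, e2, e3, e4]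
          simp [wt]
          ring
      rw [e1, wt_take_succ W _ (hrn x)]
      simp only [hdef]
      push_cast
      ring
    have hper : ∀ x : ℤ, h (x + k) = h x + wt W := by
      intro x
      have e2 : (x + k) / k = x / k + 1 := Int.add_ediv_of_dvd_right (dvd_refl _) |>.trans (by
        rw [Int.ediv_self hkz.ne'])
      have e3 : (x + k) % k = x % k := by simp
      simp only [hdef, e2, e3]
      ring
    refine ⟨h, ⟨?_, hper⟩, ?_, ?_, ?_⟩
    · intro x
      rw [hsucc]
      split_ifs
      · right; rfl
      · left; ring
    · apply List.ext_getElem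
      · simp [wd_eq, hk]
      · intro i h1 h2
        simp only [wd_eq, List.getElem_map, List.getElem_range]
        rw [hsucc]
        have e : ((i : ℤ) % k).toNat = i := by
          rw [Int.emod_eq_of_lt (by positivity) (by exact_mod_cast h2)]
          simp
        simp only [e]
        cases hW : W[i] <;> simp
    · simp [hdef, wt]
    · intro x hx0 hx1
      have e1 : x / k = 0 := Int.ediv_eq_zero_of_lt hx0 hx1
      simp only [hdef, e1]
      refine ⟨by positivity, ?_⟩
      have h2 : wt (W.take (x % k).toNat) ≤ wt W := by
        unfold wt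
        exact (List.take_sublist _ _).count_le _
      have : ((wt (W.take (x % k).toNat) : ℕ) : ℤ) ≤ (wt W : ℕ) := by exact_mod_cast h2
      linarith

end Pool.Agent.KK.H61
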