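import Pool.Agent.Helper61_KK.HLO
import Pool.Agent.Helper61_KK.HWD

/-!
# KK, row RCO: all words of a level with right moves are connected, with both parities
-/

set_option autoImplicit false

namespace Pool.Agent.KK.H61

open Pool.Agent.KK

theorem Hgt.sub_const {k t : ℕ} {h : ℤ → ℤ} (hh : Hgt k t h) (s : ℤ) :
    Hgt k t (fun x => h x - s) := by
  refine ⟨?_, ?_⟩
  · intro x
    rcases hh.1 x with h1 | h1
    · left; simp only [h1]
    · right; simp only [h1]; ring
  · intro x
    simp only [hh.2]; ring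

theorem wd_sub_const (k : ℕ) (h : ℤ → ℤ) (s : ℤ) : wd k (fun x => h x - s) = wd k h := by
  rw [wd_eq, wd_eq]
  apply List.map_congr_left
  intro i _
  simp only [decide_eq_decide]
  constructor <;> intro h1 <;> linarith

theorem rcon (hRch : RchStmt) : RconStmt := by
  intro V _ _ H X k p t ε K W W' δ hk ht0 htk htp hR hW hW' hwW hwW' hδ
  obtain ⟨h, hh, hwd1, h0, hb⟩ := hwd.2 W (by omega)
  obtain ⟨h', hh', hwd', h0', hb'⟩ := hwd.2 W' (by omega)
  rw [hW, hwW] at hh
  rw [hW', hwW'] at hh'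
  rw [hW] at hwd1 hb
  rw [hW'] at hwd' hb'
  rw [hwW] at hb
  rw [hwW'] at hb'
  have hkz : (0 : ℤ) < k := by exact_mod_cast (by omega : 0 < k)
  have hkz2 : (2 : ℤ) ≤ k := by exact_mod_cast hk
  have htz : (t : ℤ) + 1 ≤ k := by exact_mod_cast htk
  have ht0z : (0 : ℤ) ≤ t := by positivity
  -- the shift
  have key : ∀ s : ℕ, t ≤ s → s ≤ t + 1 → ∃ M a e q : ℕ, q ≤ 2 * k ^ 2 ∧ M ≤ 6 * k ^ 2 ∧
      a + e = t * M ∧ e ≤ 2 * k ∧ (e : ℤ) = h ((k : ℤ) - 1) - h' ((k : ℤ) - 1) + s ∧
      Pl V H X k p ε K (per W 0 (k - 1)) (per W' 0 (k - 1)) (k * M) a q := by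
    intro s hs1 hs2
    have hs1z : (t : ℤ) ≤ s := by exact_mod_cast hs1
    have hs2z : (s : ℤ) ≤ t + 1 := by exact_mod_cast hs2
    have hle : ∀ x, (fun x => h' x - (s : ℤ)) x ≤ h x := by
      intro x
      have e := Int.emod_add_mul_ediv x k
      have hr0 : 0 ≤ x % k := Int.emod_nonneg _ hkz.ne'
      have hr1 : x % k < k := Int.emod_lt_of_pos _ hkz
      have h1 := Hgt.mul hh (x % k) (x / k)
      have h2 := Hgt.mul hh' (x % k) (x / k)
      rw [e] at h1 h2
      have h3 := (hb _ hr0 hr1).1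
      have h4 := (hb' _ hr0 hr1).2
      simp only
      rw [h1, h2]
      linarith
    obtain ⟨D, a, hD, ha, hP⟩ := hRch V H X k p t ε K h (fun x => h' x - (s : ℤ)) hk ht0 htk htp hR
      hh (Hgt.sub_const hh' s) hle
    rw [wd_sub_const, hwd1, hwd'] at hP
    have hk1 : (0 : ℤ) ≤ (k : ℤ) - 1 := by linarith
    have hk2 : (k : ℤ) - 1 < k := by linarith
    have b1 := hb _ hk1 hk2
    have b2 := hb' _ hk1 hk2
    have he0 : 0 ≤ h ((k : ℤ) - 1) - h' ((k : ℤ) - 1) + s := by linarith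
    obtain ⟨e, he⟩ := Int.eq_ofNat_of_zero_le he0
    have hDle : (D : ℤ) ≤ k * (2 * k) := by
      rw [hD]
      calc ∑ x ∈ Finset.range k, (h x - (h' x - (s : ℤ)))
          ≤ ∑ x ∈ Finset.range k, (2 * (k : ℤ)) := by
            apply Finset.sum_le_sum
            intro x hx
            have hx' : x < k := Finset.mem_range.mp hx
            have c1 := hb (x : ℤ) (by positivity) (by exact_mod_cast hx')
            have c2 := hb' (x : ℤ) (by positivity) (by exact_mod_cast hx')
            linarith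
        _ = k * (2 * k) := by
            rw [Finset.sum_const, Finset.card_range, nsmul_eq_mul]
    have hDn : D ≤ 2 * k ^ 2 := by
      have : (D : ℤ) ≤ ((2 * k ^ 2 : ℕ) : ℤ) := by
        push_cast; nlinarith
      exact_mod_cast this
    refine ⟨3 * D, a, e, D, hDn, by omega, ?_, ?_, by rw [he], ?_⟩
    · have : ((a + e : ℕ) : ℤ) = ((t * (3 * D) : ℕ) : ℤ) := by
        push_cast
        rw [ha, ← he]
        ring
      exact_mod_cast this
    · have : (e : ℤ) ≤ ((2 * k : ℕ) : ℤ) := by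
        rw [← he]; push_cast; linarith
      exact_mod_cast this
    · have e1 : k * (3 * D) = 3 * k * D := by ring
      rw [e1]; exact hP
  obtain ⟨M, a, e, q, c1, c2, c3, c4, c5, c6⟩ := key t le_rfl (by omega)
  obtain ⟨M', a', e', q', c1', c2', c3', c4', c5', c6'⟩ := key (t + 1) (by omega) le_rfl
  have hee : e' = e + 1 := by
    have : (e' : ℤ) = e + 1 := by
      rw [c5, c5']; push_cast; ring
    exact_mod_cast this
  by_cases hpar : e % 2 = δ
  · exact ⟨M, a, e, q, c1, c2, c3, c4, hpar, c6⟩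
  · exact ⟨M', a', e', q', c1', c2', c3', c4', by omega, c6'⟩

end Pool.Agent.KK.H61
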